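import Pool.Agent.H43.G.R_pool_sql_team_seeded_3997aac3.Q209.KS.KerA

/-!
Project KS: the Halász kernel, large frequencies.
-/

set_option autoImplicit false

namespace Pool.Agent.Q209.KS

open Finset
open Pool.Agent.H376R2.MR
open Pool.Agent.Q240.KS

theorem log_succ_sub {n : ℕ} (hn : 1 ≤ n) :
    |Real.log ((n + 1 : ℕ) : ℝ) - Real.log n| ≤ 1 / n := by
  have hn0 : (0 : ℝ) < n := by exact_mod_cast hn
  have h1 : Real.log ((n + 1 : ℕ) : ℝ) - Real.log n = Real.log (((n + 1 : ℕ) : ℝ) / n) :=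
    (Real.log_div (by positivity) (by positivity)).symm
  have h2 : ((n + 1 : ℕ) : ℝ) / n = 1 + 1 / n := by
    push_cast
    field_simp
  have h3 := Real.log_le_sub_one_of_pos (show (0 : ℝ) < 1 + 1 / n by positivity)
  have h4 : 0 ≤ Real.log (1 + 1 / (n : ℝ)) := Real.log_nonneg (by
    have : (0 : ℝ) ≤ 1 / n := by positivity
    linarith)
  rw [h1, h2, abs_of_nonneg h4]
  linarith

/-- the variation of the weight -/
theorem var_bd (c : ℝ) {a b : ℕ} (ha : 1 ≤ a) (hab : a ≤ b) :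
    ∑ n ∈ Ico a b, |Wt (Real.log ((n + 1 : ℕ) : ℝ) - c) / ((n + 1 : ℕ) : ℝ) -
      Wt (Real.log n - c) / n| ≤ 2 / a := by
  have h1 : ∀ n ∈ Ico a b, |Wt (Real.log ((n + 1 : ℕ) : ℝ) - c) / ((n + 1 : ℕ) : ℝ) -
      Wt (Real.log n - c) / n| ≤ 2 * (1 / (n : ℝ)) - 2 * (1 / ((n + 1 : ℕ) : ℝ)) := by
    intro n hn
    have hn1 : 1 ≤ n := ha.trans (Finset.mem_Ico.1 hn).1
    have hn0 : (0 : ℝ) < n := by exact_mod_cast hn1
    have hn0' : (0 : ℝ) < ((n + 1 : ℕ) : ℝ) := by positivity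
    have h2 : Wt (Real.log ((n + 1 : ℕ) : ℝ) - c) / ((n + 1 : ℕ) : ℝ) - Wt (Real.log n - c) / n =
        (Wt (Real.log ((n + 1 : ℕ) : ℝ) - c) - Wt (Real.log n - c)) / ((n + 1 : ℕ) : ℝ) -
          Wt (Real.log n - c) * (1 / (n : ℝ) - 1 / ((n + 1 : ℕ) : ℝ)) := by
      field_simp
      ring
    have h3 : 0 ≤ 1 / (n : ℝ) - 1 / ((n + 1 : ℕ) : ℝ) := by
      have : 1 / ((n + 1 : ℕ) : ℝ) ≤ 1 / (n : ℝ) :=
        one_div_le_one_div_of_le hn0 (by push_cast; linarith)
      linarith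
    rw [h2]
    refine (abs_sub _ _).trans ?_
    have h4 : |(Wt (Real.log ((n + 1 : ℕ) : ℝ) - c) - Wt (Real.log n - c)) / ((n + 1 : ℕ) : ℝ)| ≤
        1 / (n : ℝ) - 1 / ((n + 1 : ℕ) : ℝ) := by
      rw [abs_div, abs_of_pos hn0']
      have h5 := Wt_lip (Real.log ((n + 1 : ℕ) : ℝ) - c) (Real.log n - c)
      rw [sub_sub_sub_cancel_right] at h5
      have h6 := h5.trans (log_succ_sub hn1)
      have h7 : 1 / (n : ℝ) - 1 / ((n + 1 : ℕ) : ℝ) = 1 / n / ((n + 1 : ℕ) : ℝ) := by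
        push_cast
        field_simp
        ring
      rw [h7]
      exact div_le_div_of_nonneg_right h6 hn0'.le
    have h8 : |Wt (Real.log n - c) * (1 / (n : ℝ) - 1 / ((n + 1 : ℕ) : ℝ))| ≤
        1 / (n : ℝ) - 1 / ((n + 1 : ℕ) : ℝ) := by
      rw [abs_of_nonneg (mul_nonneg (Wt_nonneg _) h3)]
      exact mul_le_of_le_one_left h3 (Wt_le _)
    linarith
  refine (Finset.sum_le_sum h1).trans ?_
  have h9 : ∀ b, a ≤ b → ∑ n ∈ Ico a b, (2 * (1 / (n : ℝ)) - 2 * (1 / ((n + 1 : ℕ) : ℝ))) =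
      2 * (1 / (a : ℝ)) - 2 * (1 / (b : ℝ)) := by
    intro b hb
    induction b, hb using Nat.le_induction with
    | base => simp
    | succ m hm ih =>
      rw [Finset.sum_Ico_succ_top hm, ih]
      ring
  rw [h9 b hab]
  have h10 : (0 : ℝ) ≤ 1 / b := by positivity
  have h11 : 2 / (a : ℝ) = 2 * (1 / a) := by ring
  linarith

theorem exp_six : Real.exp 6 ≤ 512 := by
  have h1 := Real.exp_one_lt_d9
  have h2 : Real.exp 6 = Real.exp 1 ^ 6 := by
    rw [← Real.exp_nat_mul]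
    norm_num
  rw [h2]
  calc Real.exp 1 ^ 6 ≤ (2.7182818286 : ℝ) ^ 6 :=
        pow_le_pow_left₀ (Real.exp_pos _).le h1.le 6
    _ ≤ 512 := by norm_num

theorem ker_large {CD : ℝ} (hCD : 1 ≤ CD)
    (hD : ∀ (N N' : ℕ) (t β : ℝ), 1 ≤ N → N ≤ N' → N' ≤ 2 * N → 1 ≤ |t| →
      ‖∑ n ∈ Finset.Ioc N N', Pool.Agent.H469R2.NK.e (β * n) * Pool.Agent.Q236.CR.nt t n‖ ≤
        CD * (√|t| + N / √|t|) * (1 + Real.log N))
    {N : ℝ} (hN : 1 ≤ N) {τ : ℤ} (hτ : τ ≠ 0) (hτN : N * Real.exp (-3) < |(τ : ℝ)|) :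
    ‖kn N τ‖ ≤ (Real.exp 3 + 200 * CD * (1 + Real.exp 6) * Real.exp 3) *
      (√|(τ : ℝ)| * (1 + Real.log N) / N) := by
  have hN0 : 0 < N := by linarith
  have hlogN : 0 ≤ Real.log N := Real.log_nonneg hN
  have hτ1 : 1 ≤ |(τ : ℝ)| := by
    have h1 : 1 ≤ |τ| := Int.one_le_abs hτ
    rw [← Int.cast_abs]
    exact_mod_cast h1
  have hsq : 1 ≤ √|(τ : ℝ)| := Real.one_le_sqrt.2 hτ1
  have hsq0 : 0 < √|(τ : ℝ)| := by linarith
  have hE3 : 0 < Real.exp 3 := Real.exp_pos _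
  have hE : Real.exp 3 * Real.exp (-3) = 1 := by
    rw [← Real.exp_add]
    norm_num
  obtain ⟨a, ha⟩ : ∃ a : ℕ, a = max 1 ⌊N * Real.exp (-3)⌋₊ := ⟨_, rfl⟩
  obtain ⟨b, hb⟩ : ∃ b : ℕ, b = ⌊Real.exp 3 * N⌋₊ := ⟨_, rfl⟩
  have ha1 : 1 ≤ a := by rw [ha]; exact le_max_left _ _
  have hexp3 : (1 : ℝ) ≤ Real.exp 3 := Real.one_le_exp (by norm_num)
  have hexpm3 : Real.exp (-3) ≤ 1 := Real.exp_le_one_iff.2 (by norm_num)
  have hab : a ≤ b := by
    rw [ha, hb]
    refine max_le (Nat.le_floor ?_) (Nat.floor_le_floor ?_)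
    · push_cast
      nlinarith
    · nlinarith [Real.exp_pos (-3)]
  have ha2 : N * Real.exp (-3) ≤ 2 * a := by
    have h1 := Nat.lt_floor_add_one (N * Real.exp (-3))
    have h2 : ((⌊N * Real.exp (-3)⌋₊ : ℕ) : ℝ) ≤ a := by
      rw [ha]
      exact_mod_cast le_max_right _ _
    have h3 : (1 : ℝ) ≤ a := by exact_mod_cast ha1
    linarith
  have hbN : (b : ℝ) ≤ Real.exp 3 * N := by
    rw [hb]
    exact Nat.floor_le (by positivity)
  have hb1 : 1 ≤ b := ha1.trans hab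
  have hkn : kn N τ = ∑ n ∈ Ioc 0 a, ((Wt (Real.log n - Real.log N) / n : ℝ) : ℂ) *
        ch τ (Real.log n) + ∑ n ∈ Ioc a b, ((Wt (Real.log n - Real.log N) / n : ℝ) : ℂ) *
        ch τ (Real.log n) := by
    rw [Finset.sum_Ioc_consecutive _ (Nat.zero_le _) hab, hb]
    rfl
  rw [hkn]
  refine (norm_add_le _ _).trans ?_
  rw [add_mul]
  refine add_le_add ?_ ?_
  · -- the short initial piece
    have h1 : ‖∑ n ∈ Ioc 0 a, ((Wt (Real.log n - Real.log N) / n : ℝ) : ℂ) *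
        ch τ (Real.log n)‖ ≤ Real.exp 3 / N := by
      by_cases h : 1 ≤ ⌊N * Real.exp (-3)⌋₊
      · have h2 : ∀ n ∈ Ioc 0 a, ((Wt (Real.log n - Real.log N) / n : ℝ) : ℂ) *
            ch τ (Real.log n) = 0 := by
          intro n hn
          rw [Finset.mem_Ioc] at hn
          have h3 : (n : ℝ) ≤ N * Real.exp (-3) := by
            have h4 : n ≤ ⌊N * Real.exp (-3)⌋₊ := by
              rw [ha, max_eq_right h] at hn
              exact hn.2
            exact (Nat.le_floor_iff (by positivity)).1 h4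
          have hn0 : (0 : ℝ) < n := by exact_mod_cast hn.1
          have h5 : Real.log n ≤ Real.log N + -3 := by
            have h6 := Real.log_le_log hn0 h3
            rwa [Real.log_mul hN0.ne' (Real.exp_pos _).ne', Real.log_exp] at h6
          rw [Wt_zero (by rw [le_abs]; right; linarith)]
          simp
        rw [Finset.sum_eq_zero h2, norm_zero]
        positivity
      · have h2 : a = 1 := by rw [ha, max_eq_left (by omega)]
        rw [h2]
        have h3 : Ioc 0 1 = {1} := by decide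
        rw [h3, Finset.sum_singleton, norm_mul, norm_ch, mul_one, Complex.norm_real,
          Real.norm_eq_abs, abs_of_nonneg (div_nonneg (Wt_nonneg _) (Nat.cast_nonneg _))]
        exact term_bd hN le_rfl
    refine h1.trans ?_
    rw [mul_div_assoc', div_le_div_iff_of_pos_right hN0]
    have h4 : 1 ≤ √|(τ : ℝ)| * (1 + Real.log N) := by nlinarith
    nlinarith
  · have hblock : ∀ M M' : ℕ, a ≤ M → M ≤ M' → M' ≤ 2 * M → M' ≤ b →
        ‖∑ n ∈ Ioc M M', ch τ (Real.log n)‖ ≤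
          4 * CD * (1 + Real.exp 6) * (√|(τ : ℝ)| * (1 + Real.log N)) := by
      intro M M' h1 h2 h3 h4
      have hM1 : 1 ≤ M := ha1.trans h1
      have h5 := hD M M' τ 0 hM1 h2 h3 hτ1
      have h6 : ∑ n ∈ Ioc M M', ch τ (Real.log n) = ∑ n ∈ Finset.Ioc M M',
          Pool.Agent.H469R2.NK.e (0 * n) * Pool.Agent.Q236.CR.nt τ n := by
        refine Finset.sum_congr rfl fun n hn => ?_
        rw [ch_eq_nt τ (hM1.trans (Finset.mem_Ioc.1 hn).1.le)]
        unfold Pool.Agent.H469R2.NK.e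
        simp
      rw [h6]
      refine h5.trans ?_
      have hMb : (M : ℝ) ≤ Real.exp 3 * N := le_trans (by exact_mod_cast h2.trans h4) hbN
      have h7 : (M : ℝ) ≤ Real.exp 6 * |(τ : ℝ)| := by
        have h8 : Real.exp 6 = Real.exp 3 * Real.exp 3 := by
          rw [← Real.exp_add]
          norm_num
        have h9 : N ≤ Real.exp 3 * |(τ : ℝ)| := by
          have h10 := mul_le_mul_of_nonneg_left hτN.le hE3.le
          calc N = Real.exp 3 * (N * Real.exp (-3)) := by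
                rw [mul_left_comm, hE, mul_one]
            _ ≤ _ := h10
        rw [h8, mul_assoc]
        exact hMb.trans (mul_le_mul_of_nonneg_left h9 hE3.le)
      have h11 : (M : ℝ) / √|(τ : ℝ)| ≤ Real.exp 6 * √|(τ : ℝ)| := by
        rw [div_le_iff₀ hsq0, mul_assoc, Real.mul_self_sqrt (abs_nonneg _)]
        exact h7
      have hM0 : (0 : ℝ) < M := by exact_mod_cast hM1
      have h12 : 1 + Real.log M ≤ 4 * (1 + Real.log N) := by
        have h13 := Real.log_le_log hM0 hMb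
        rw [Real.log_mul hE3.ne' hN0.ne', Real.log_exp] at h13
        linarith
      have h14 : √|(τ : ℝ)| + M / √|(τ : ℝ)| ≤ (1 + Real.exp 6) * √|(τ : ℝ)| := by linarith
      have h15 : 0 ≤ 1 + Real.log (M : ℝ) := by
        have := Real.log_nonneg (show (1 : ℝ) ≤ M by exact_mod_cast hM1)
        linarith
      calc CD * (√|(τ : ℝ)| + M / √|(τ : ℝ)|) * (1 + Real.log M) ≤
          CD * ((1 + Real.exp 6) * √|(τ : ℝ)|) * (4 * (1 + Real.log N)) := by
            refine mul_le_mul (mul_le_mul_of_nonneg_left h14 (by linarith)) h12 h15 ?_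
            positivity
        _ = 4 * CD * (1 + Real.exp 6) * (√|(τ : ℝ)| * (1 + Real.log N)) := by ring
    have hB0 : 0 ≤ 4 * CD * (1 + Real.exp 6) * (√|(τ : ℝ)| * (1 + Real.log N)) := by positivity
    have hba : b ≤ 2 ^ 10 * a := by
      have h1 : (b : ℝ) ≤ ((2 ^ 10 * a : ℕ) : ℝ) := by
        push_cast
        have h8 : Real.exp 6 = Real.exp 3 * Real.exp 3 := by
          rw [← Real.exp_add]
          norm_num
        have h9 : Real.exp 3 * N = Real.exp 6 * (N * Real.exp (-3)) := by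
          rw [h8]
          calc Real.exp 3 * N = Real.exp 3 * N * (Real.exp 3 * Real.exp (-3)) := by rw [hE, mul_one]
            _ = _ := by ring
        have h10 : 0 ≤ N * Real.exp (-3) := by positivity
        calc (b : ℝ) ≤ Real.exp 3 * N := hbN
          _ = Real.exp 6 * (N * Real.exp (-3)) := h9
          _ ≤ 512 * (N * Real.exp (-3)) := mul_le_mul_of_nonneg_right exp_six h10
          _ ≤ 1024 * a := by linarith
      exact_mod_cast h1
    have hpart : ∀ m, a ≤ m → m ≤ b → ‖∑ n ∈ Ioc a m, ch τ (Real.log n)‖ ≤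
        10 * (4 * CD * (1 + Real.exp 6) * (√|(τ : ℝ)| * (1 + Real.log N))) := by
      intro m h1 h2
      have h3 := dyadic (fun n : ℕ => ch τ (Real.log n)) ha1 hB0 10 m h1 (h2.trans hba)
        fun M M' e1 e2 e3 e4 => hblock M M' e1 e2 e3 (e4.trans h2)
      exact_mod_cast h3
    have h1 := abel_bd (fun n : ℕ => Wt (Real.log n - Real.log N) / n)
      (fun n : ℕ => ch τ (Real.log n)) hab hpart
    refine h1.trans ?_
    have h2 := var_bd (Real.log N) ha1 hab
    have h3 : 2 / (a : ℝ) ≤ 4 * (Real.exp 3 / N) := by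
      have ha0 : (0 : ℝ) < a := by exact_mod_cast ha1
      rw [mul_div_assoc', div_le_div_iff₀ ha0 hN0]
      have h4 : N = Real.exp 3 * (N * Real.exp (-3)) := by
        rw [mul_left_comm, hE, mul_one]
      have h5 := mul_le_mul_of_nonneg_left ha2 hE3.le
      rw [← h4] at h5
      linarith
    have h4 : |Wt (Real.log (b : ℝ) - Real.log N) / (b : ℝ)| ≤ Real.exp 3 / N := by
      rw [abs_of_nonneg (div_nonneg (Wt_nonneg _) (Nat.cast_nonneg _))]
      exact term_bd hN hb1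
    have h5 : |Wt (Real.log (b : ℝ) - Real.log N) / (b : ℝ)| +
        ∑ n ∈ Ico a b, |Wt (Real.log ((n + 1 : ℕ) : ℝ) - Real.log N) / ((n + 1 : ℕ) : ℝ) -
          Wt (Real.log n - Real.log N) / n| ≤ 5 * (Real.exp 3 / N) := by linarith
    refine (mul_le_mul_of_nonneg_left h5 (by positivity)).trans (le_of_eq ?_)
    field_simp
    ring

theorem ker (hS : S_SMO) : S_KER := by
  obtain ⟨CS, hCS, hS⟩ := hS
  obtain ⟨CD, hCD, hD⟩ := Pool.Agent.Q53.CR.sdb
  refine ⟨Real.exp 6 + (5 * (CS * (1 + Real.exp 4))) +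
    (Real.exp 3 + 200 * CD * (1 + Real.exp 6) * Real.exp 3), ?_, ?_⟩
  · have h1 : (1 : ℝ) ≤ Real.exp 6 := Real.one_le_exp (by norm_num)
    have h2 : 0 ≤ 5 * (CS * (1 + Real.exp 4)) := by positivity
    have h3 : 0 ≤ Real.exp 3 + 200 * CD * (1 + Real.exp 6) * Real.exp 3 := by positivity
    linarith
  intro N hN
  have hN0 : 0 < N := by linarith
  have hlogN : 0 ≤ Real.log N := Real.log_nonneg hN
  have h1 : 0 ≤ Real.exp 6 := (Real.exp_pos _).le
  have h2 : 0 ≤ 5 * (CS * (1 + Real.exp 4)) := by positivity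
  have h3 : 0 ≤ Real.exp 3 + 200 * CD * (1 + Real.exp 6) * Real.exp 3 := by positivity
  refine ⟨(ker_zero hN).trans (by linarith), fun τ hτ => ?_⟩
  have hτ0 : (τ : ℝ) ≠ 0 := by exact_mod_cast hτ
  have h4 : 0 ≤ 1 / (τ : ℝ) ^ 2 := by positivity
  have h5 : 0 ≤ |(τ : ℝ)| ^ (1 / 2 : ℝ) * (1 + Real.log N) / N := by positivity
  by_cases h : |(τ : ℝ)| ≤ N * Real.exp (-3)
  · refine (ker_small hS hN hτ h hCS).trans ?_
    refine mul_le_mul (by linarith) (by linarith) h4 (by linarith)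
  · push Not at h
    refine (ker_large hCD hD hN hτ h).trans ?_
    rw [Real.sqrt_eq_rpow]
    refine mul_le_mul (by linarith) (by linarith) h5 (by linarith)

end Pool.Agent.Q209.KS
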